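import Mathlib
import Pool.Agent.NPC.Defs

set_option autoImplicit false

/-!
# The pooling problem with one quality
-/

namespace Pool.Agent.X130.Pl

open Pool.Agent.NPC

/-- Instances of the pooling problem with one quality: the lists of the inputs `(i, C_i, λ_i)`, of the
pools `(ℓ, C_ℓ)` and of the outputs `(j, C_j, μ_j)`, and the lists of the arcs `((i, ℓ), c_a, u_a)` from
inputs to pools and of the arcs `((ℓ, j), c_a, u_a)` from pools to outputs. -/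
abbrev PInst : Type := (List (ℕ × ℚ × ℚ) × List (ℕ × ℚ) × List (ℕ × ℚ × ℚ)) ×
  (List ((ℕ × ℕ) × ℚ × ℚ) × List ((ℕ × ℕ) × ℚ × ℚ))

namespace PInst

/-- the inputs -/
def inputs (I : PInst) : List (ℕ × ℚ × ℚ) := I.1.1

/-- the pools -/
def pools (I : PInst) : List (ℕ × ℚ) := I.1.2.1

/-- the outputs -/
def outputs (I : PInst) : List (ℕ × ℚ × ℚ) := I.1.2.2

/-- the arcs from inputs to pools -/
def AI (I : PInst) : List ((ℕ × ℕ) × ℚ × ℚ) := I.2.1

/-- the arcs from pools to outputs -/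
def AJ (I : PInst) : List ((ℕ × ℕ) × ℚ × ℚ) := I.2.2

/-- The data describe a network: nodes of a kind are listed once, every arc is listed once and joins
listed nodes of the right kinds, and the capacities are nonnegative. -/
def Valid (I : PInst) : Prop :=
  (I.inputs.map Prod.fst).Nodup ∧ (I.pools.map Prod.fst).Nodup ∧ (I.outputs.map Prod.fst).Nodup ∧
    (I.AI.map Prod.fst).Nodup ∧ (I.AJ.map Prod.fst).Nodup ∧
    (∀ a ∈ I.AI, a.1.1 ∈ I.inputs.map Prod.fst ∧ a.1.2 ∈ I.pools.map Prod.fst) ∧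
    (∀ a ∈ I.AJ, a.1.1 ∈ I.pools.map Prod.fst ∧ a.1.2 ∈ I.outputs.map Prod.fst) ∧
    (∀ i ∈ I.inputs, 0 ≤ i.2.1) ∧ (∀ l ∈ I.pools, 0 ≤ l.2) ∧ (∀ j ∈ I.outputs, 0 ≤ j.2.1) ∧
    (∀ a ∈ I.AI, 0 ≤ a.2.2) ∧ (∀ a ∈ I.AJ, 0 ≤ a.2.2)

/-- the number of arcs of the list entering `h` -/
def inDeg (A : List ((ℕ × ℕ) × ℚ × ℚ)) (h : ℕ) : ℕ := A.countP (fun a => decide (a.1.2 = h))

/-- the number of arcs of the list leaving `t` -/
def outDeg (A : List ((ℕ × ℕ) × ℚ × ℚ)) (t : ℕ) : ℕ := A.countP (fun a => decide (a.1.1 = t))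

end PInst

/-- the total flow on the arcs of the list entering `h` -/
noncomputable def inflow (A : List ((ℕ × ℕ) × ℚ × ℚ)) (f : ℕ × ℕ → ℝ) (h : ℕ) : ℝ :=
  (A.map (fun a => if a.1.2 = h then f a.1 else 0)).sum

/-- the total flow on the arcs of the list leaving `t` -/
noncomputable def outflow (A : List ((ℕ × ℕ) × ℚ × ℚ)) (f : ℕ × ℕ → ℝ) (t : ℕ) : ℝ :=
  (A.map (fun a => if a.1.1 = t then f a.1 else 0)).sum

/-- the total cost of the flow on the arcs of the list -/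
noncomputable def cost (A : List ((ℕ × ℕ) × ℚ × ℚ)) (f : ℕ × ℕ → ℝ) : ℝ :=
  (A.map (fun a => (a.2.1 : ℝ) * f a.1)).sum

/-- The flows `x` (inputs to pools), `y` (pools to outputs) and the pool qualities `p` are feasible:
bounds of the arcs, capacities of inputs, pools and outputs, flow conservation at the pools, blending at
the pools (`∑ λ_i x_{iℓ} = p_ℓ ∑ y_{ℓj}`) and at the outputs (`∑ p_ℓ y_{ℓj} ≤ μ_j ∑ y_{ℓj}`). -/
def Feasible (I : PInst) (x y : ℕ × ℕ → ℝ) (p : ℕ → ℝ) : Prop :=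
  (∀ a ∈ I.AI, 0 ≤ x a.1 ∧ x a.1 ≤ a.2.2) ∧ (∀ a ∈ I.AJ, 0 ≤ y a.1 ∧ y a.1 ≤ a.2.2) ∧
    (∀ i ∈ I.inputs, outflow I.AI x i.1 ≤ i.2.1) ∧
    (∀ l ∈ I.pools, inflow I.AI x l.1 ≤ l.2 ∧ inflow I.AI x l.1 = outflow I.AJ y l.1) ∧
    (∀ j ∈ I.outputs, inflow I.AJ y j.1 ≤ j.2.1) ∧
    (∀ l ∈ I.pools, (I.AI.map (fun a => if a.1.2 = l.1 then
      (I.inputs.map (fun i => if i.1 = a.1.1 then (i.2.2 : ℝ) * x a.1 else 0)).sum else 0)).sum =
        p l.1 * outflow I.AJ y l.1) ∧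
    (∀ j ∈ I.outputs, (I.AJ.map (fun a => if a.1.2 = j.1 then p a.1.1 * y a.1 else 0)).sum ≤
      (j.2.2 : ℝ) * inflow I.AJ y j.1)

/-- The pooling problem restricted to a class of instances, as a decision problem: given an instance of
the class and a rational number `t`, is there a feasible solution of cost at most `t`? -/
def Pooling (cls : PInst → Prop) (I : PInst × ℚ) : Prop :=
  I.1.Valid ∧ cls I.1 ∧ ∃ x y p, Feasible I.1 x y p ∧ cost I.1.AI x + cost I.1.AJ y ≤ I.2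

/-- All pools and all outputs have in-degree at most two. -/
def InTwo (I : PInst) : Prop :=
  (∀ l ∈ I.pools, PInst.inDeg I.AI l.1 ≤ 2) ∧ ∀ j ∈ I.outputs, PInst.inDeg I.AJ j.1 ≤ 2

/-- All inputs and all pools have out-degree at most two. -/
def OutTwo (I : PInst) : Prop :=
  (∀ i ∈ I.inputs, PInst.outDeg I.AI i.1 ≤ 2) ∧ ∀ l ∈ I.pools, PInst.outDeg I.AJ l.1 ≤ 2

end Pool.Agent.X130.Pl
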