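import Mathlib
import Pool.Agent.X130.Pl.Defs
import Pool.Agent.X130.VC

set_option autoImplicit false

/-!
# In-degrees at most two: reduction from vertex cover
-/

namespace Pool.Agent.X130.Pl

open Pool.Agent.NPC Pool.Agent.NPC.H634R2

/-! ### Sums -/

theorem sum_toFin {α : Type} [DecidableEq α] {L : List α} (hL : L.Nodup) (F : α → ℝ) :
    (L.map F).sum = ∑ v ∈ L.toFinset, F v := (List.sum_toFinset F hL).symm

theorem sum_single {L : List ℕ} (hL : L.Nodup) {v : ℕ} (hv : v ∈ L) (F : ℕ → ℝ) :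
    (L.map (fun w => if w = v then F w else 0)).sum = F v := by
  rw [sum_toFin hL, Finset.sum_ite_eq', if_pos (List.mem_toFinset.2 hv)]

theorem sum_none {α : Type} (L : List α) (F : α → ℝ) (h : ∀ v ∈ L, F v = 0) :
    (L.map F).sum = 0 := by
  rw [List.map_congr_left h]
  simp

theorem sum_fm {α : Type} (L : List α) (f : α → List ℝ) :
    (L.flatMap f).sum = (L.map (fun a => (f a).sum)).sum := by
  induction L with
  | nil => simp
  | cons a L ih => rw [List.flatMap_cons, List.sum_append, ih, List.map_cons, List.sum_cons]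

theorem sum_neg' {α : Type} (L : List α) (f : α → ℝ) :
    (L.map (fun a => -f a)).sum = -(L.map f).sum := by
  induction L with
  | nil => simp
  | cons a L ih =>
    rw [List.map_cons, List.sum_cons, ih, List.map_cons, List.sum_cons]
    ring

theorem zsnd (E : List (ℕ × ℕ)) : (E.zipIdx.map Prod.snd).Nodup := by
  rw [List.zipIdx_map_snd]
  exact List.nodup_range'

theorem znodup (E : List (ℕ × ℕ)) : E.zipIdx.Nodup := List.Nodup.of_map _ (zsnd E)

theorem zinj {E : List (ℕ × ℕ)} {p q : (ℕ × ℕ) × ℕ} (hp : p ∈ E.zipIdx) (hq : q ∈ E.zipIdx)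
    (h : p.2 = q.2) : p = q := List.inj_on_of_nodup_map (zsnd E) hp hq h

theorem zmem {E : List (ℕ × ℕ)} {p : (ℕ × ℕ) × ℕ} (hp : p ∈ E.zipIdx) : p.1 ∈ E := by
  obtain ⟨x, i⟩ := p
  exact List.mem_of_getElem? (List.mem_zipIdx_iff_getElem?.1 hp)

theorem zex {E : List (ℕ × ℕ)} {e : ℕ × ℕ} (he : e ∈ E) : ∃ p ∈ E.zipIdx, p.1 = e := by
  obtain ⟨j, hj, h⟩ := List.getElem_of_mem he
  exact ⟨(e, j), by rw [List.mem_zipIdx_iff_getElem?, List.getElem?_eq_getElem hj, h], rfl⟩

theorem zsum {E : List (ℕ × ℕ)} {p : (ℕ × ℕ) × ℕ} (hp : p ∈ E.zipIdx)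
    (F : (ℕ × ℕ) × ℕ → ℝ) :
    (E.zipIdx.map (fun q => if q.2 = p.2 then F q else 0)).sum = F p := by
  rw [sum_toFin (znodup E), Finset.sum_eq_single p]
  · rw [if_pos rfl]
  · intro q hq hne
    rw [if_neg]
    intro h
    exact hne (zinj (List.mem_toFinset.1 hq) hp h)
  · intro h
    exact absurd (List.mem_toFinset.2 hp) h

/-- Number of vertices not in `C`. -/
theorem sum_notin {V : List ℕ} (hV : V.Nodup) (C : Finset ℕ) (hC : ∀ v ∈ C, v ∈ V) :
    (V.map (fun v => if v ∈ C then (0 : ℝ) else 1)).sum = (V.length : ℝ) - C.card := by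
  classical
  rw [sum_toFin hV, Finset.sum_ite, Finset.sum_const_zero, zero_add, Finset.sum_const, nsmul_eq_mul,
    mul_one]
  have h1 : V.toFinset.filter (fun v => v ∉ C) = V.toFinset \ C := by
    ext v
    simp [Finset.mem_sdiff]
  rw [h1, Finset.card_sdiff_of_subset (fun v hv => List.mem_toFinset.2 (hC v hv)),
    List.toFinset_card_of_nodup hV, Nat.cast_sub]
  have h2 := Finset.card_le_card (show C ⊆ V.toFinset from fun v hv => List.mem_toFinset.2 (hC v hv))
  rwa [List.toFinset_card_of_nodup hV] at h2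

theorem sum_le_sum' {α : Type} (L : List α) (F G : α → ℝ) (h : ∀ v ∈ L, F v ≤ G v) :
    (L.map F).sum ≤ (L.map G).sum := List.sum_le_sum h

theorem mem_le_sum {α : Type} (L : List α) (F : α → ℝ) (h : ∀ v ∈ L, 0 ≤ F v) {v : α} (hv : v ∈ L) :
    F v ≤ (L.map F).sum := by
  refine List.single_le_sum ?_ _ (List.mem_map_of_mem hv)
  intro x hx
  obtain ⟨w, hw, rfl⟩ := List.mem_map.1 hx
  exact h w hw

/-- If some term is `0` then the sum of numbers at most `1` is at most the number of the others. -/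
theorem sum_le_pred {α : Type} (L : List α) (F : α → ℝ) (h : ∀ v ∈ L, F v ≤ 1) {v : α} (hv : v ∈ L)
    (h0 : F v = 0) : (L.map F).sum ≤ (L.length : ℝ) - 1 := by
  classical
  induction L with
  | nil => simp at hv
  | cons w L ih =>
    simp only [List.map_cons, List.sum_cons, List.length_cons]
    by_cases hvL : v ∈ L
    · have h1 := ih (fun u hu => h u (List.mem_cons_of_mem _ hu)) hvL
      have h2 := h w (List.mem_cons_self ..)
      push_cast
      linarith
    · rw [List.mem_cons] at hv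
      have hw : v = w := hv.resolve_right hvL
      subst hw
      have h1 : (L.map F).sum ≤ (L.map (fun _ => (1 : ℝ))).sum :=
        List.sum_le_sum fun u hu => h u (List.mem_cons_of_mem _ hu)
      simp only [List.map_const', List.sum_replicate, smul_eq_mul, nsmul_eq_mul, mul_one] at h1
      rw [h0]
      push_cast
      linarith

/-! ### The instance -/

/-- a large capacity -/
def big (V : List ℕ) (E : List (ℕ × ℕ)) : ℚ := (((V.length + 1) * (E.length + 1) : ℕ) : ℚ)

/-- arcs from the inputs -/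
def aI (V : List ℕ) (E : List (ℕ × ℕ)) : List ((ℕ × ℕ) × ℚ × ℚ) :=
  V.map (fun v => ((0, v), 0, big V E)) ++ V.map (fun v => ((1, v), -1, 1))

/-- arcs to the outputs -/
def aJ (V : List ℕ) (E : List (ℕ × ℕ)) (k : ℕ) : List ((ℕ × ℕ) × ℚ × ℚ) :=
  E.zipIdx.flatMap (fun p => [((p.1.1, 2 * p.2), ((-((k + 1 : ℕ) : ℤ) : ℤ) : ℚ), 1),
    ((p.1.2, 2 * p.2), ((-((k + 1 : ℕ) : ℤ) : ℤ) : ℚ), 1)]) ++
    V.map (fun v => ((v, 2 * v + 1), 0, big V E))

/-- the instance -/
def inst (V : List ℕ) (E : List (ℕ × ℕ)) (k : ℕ) : PInst :=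
  (([(0, big V E, 0), (1, big V E, 1)], V.map (fun v => (v, big V E)),
    E.zipIdx.map (fun p => (2 * p.2, 1, 0)) ++ V.map (fun v => (2 * v + 1, big V E, 1))),
    (aI V E, aJ V E k))

/-- the bound of the cost -/
def bnd (V : List ℕ) (E : List (ℕ × ℕ)) (k : ℕ) : ℚ :=
  ((-(((k + 1) * E.length + (V.length - k) : ℕ) : ℤ) : ℤ) : ℚ)

/-- the reduction -/
def redIn (I : (List ℕ × List (ℕ × ℕ)) × ℕ) : PInst × ℚ :=
  (inst I.1.1 I.1.2 I.2, bnd I.1.1 I.1.2 I.2)

variable {V : List ℕ} {E : List (ℕ × ℕ)} {k : ℕ}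

theorem big_ge (V : List ℕ) (E : List (ℕ × ℕ)) :
    (1 : ℝ) + V.length + E.length + V.length * E.length ≤ ((big V E : ℚ) : ℝ) := by
  unfold big
  push_cast
  nlinarith

theorem big_nonneg (V : List ℕ) (E : List (ℕ × ℕ)) : 0 ≤ big V E := by
  unfold big
  positivity

theorem mem_aJ {a : (ℕ × ℕ) × ℚ × ℚ} : a ∈ aJ V E k ↔
    (∃ p ∈ E.zipIdx, (a = ((p.1.1, 2 * p.2), ((-((k + 1 : ℕ) : ℤ) : ℤ) : ℚ), 1) ∨
      a = ((p.1.2, 2 * p.2), ((-((k + 1 : ℕ) : ℤ) : ℤ) : ℚ), 1))) ∨
    ∃ v ∈ V, a = ((v, 2 * v + 1), 0, big V E) := by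
  unfold aJ
  simp only [List.mem_append, List.mem_flatMap, List.mem_cons, List.not_mem_nil, or_false,
    List.mem_map, eq_comm]

theorem mem_aI {a : (ℕ × ℕ) × ℚ × ℚ} : a ∈ aI V E ↔
    (∃ v ∈ V, a = ((0, v), 0, big V E)) ∨ ∃ v ∈ V, a = ((1, v), -1, 1) := by
  unfold aI
  simp only [List.mem_append, List.mem_map, eq_comm]

theorem outputs_fst : (inst V E k).outputs.map Prod.fst =
    E.zipIdx.map (fun p => 2 * p.2) ++ V.map (fun v => 2 * v + 1) := by
  simp only [inst, PInst.outputs, List.map_append, List.map_map]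
  rfl

theorem valid_inst (hG : IsGraph V E) : (inst V E k).Valid := by
  have hpools : (inst V E k).pools.map Prod.fst = V := by
    simp only [inst, PInst.pools, List.map_map]
    exact List.map_id' V
  have hin : (inst V E k).inputs.map Prod.fst = [0, 1] := rfl
  refine ⟨?_, ?_, ?_, ?_, ?_, ?_, ?_, ?_, ?_, ?_, ?_, ?_⟩
  · rw [hin]; decide
  · rw [hpools]; exact hG.1
  · rw [outputs_fst, List.nodup_append']
    refine ⟨?_, hG.1.map (fun a b (h : 2 * a + 1 = 2 * b + 1) => by omega), ?_⟩
    · have h2 := (zsnd E).map (f := fun j : ℕ => 2 * j)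
        (fun a b (hab : 2 * a = 2 * b) => by omega)
      rwa [List.map_map] at h2
    · intro x hx hx'
      simp only [List.mem_map] at hx hx'
      obtain ⟨a, _, ha⟩ := hx
      obtain ⟨b, _, hb⟩ := hx'
      omega
  · simp only [inst, PInst.AI, aI, List.map_append, List.map_map]
    rw [List.nodup_append']
    refine ⟨hG.1.map (fun a b h => by simpa using h), hG.1.map (fun a b h => by simpa using h), ?_⟩
    intro x hx hx'
    simp only [List.mem_map, Function.comp_apply] at hx hx'
    obtain ⟨a, _, rfl⟩ := hx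
    obtain ⟨b, _, hb⟩ := hx'
    simp at hb
  · simp only [inst, PInst.AJ, aJ, List.map_append, List.map_map, List.map_flatMap, List.map_cons,
      List.map_nil]
    rw [List.nodup_append']
    refine ⟨?_, hG.1.map (fun a b h => by simp only [Function.comp_apply, Prod.mk.injEq] at h; exact h.1), ?_⟩
    · rw [List.nodup_flatMap]
      refine ⟨fun p hp => ?_, ?_⟩
      · have := (hG.2.1 _ (zmem hp)).2.2
        simpa using this
      · refine ((List.pairwise_map.1 (zsnd E))).imp ?_
        intro p q hpq a ha hb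
        simp only [List.mem_cons, List.not_mem_nil, or_false] at ha hb
        rcases ha with rfl | rfl <;> rcases hb with hb | hb <;> simp only [Prod.mk.injEq] at hb <;> omega
    · intro x hx hx'
      simp only [List.mem_map, List.mem_flatMap, List.mem_cons, List.not_mem_nil, or_false,
        Function.comp_apply] at hx hx'
      obtain ⟨p, _, hx⟩ := hx
      obtain ⟨b, _, rfl⟩ := hx'
      simp only [Prod.mk.injEq] at hx
      omega
  · intro a ha
    rw [hin, hpools]
    rcases mem_aI.1 ha with ⟨v, hv, rfl⟩ | ⟨v, hv, rfl⟩ <;> simp [hv]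
  · intro a ha
    rw [hpools, outputs_fst]
    rcases mem_aJ.1 ha with ⟨p, hp, rfl | rfl⟩ | ⟨v, hv, rfl⟩
    · exact ⟨(hG.2.1 _ (zmem hp)).1, List.mem_append_left _ (List.mem_map.2 ⟨p, hp, rfl⟩)⟩
    · exact ⟨(hG.2.1 _ (zmem hp)).2.1, List.mem_append_left _ (List.mem_map.2 ⟨p, hp, rfl⟩)⟩
    · exact ⟨hv, List.mem_append_right _ (List.mem_map.2 ⟨v, hv, rfl⟩)⟩
  · intro i hi
    simp only [inst, PInst.inputs, List.mem_cons, List.not_mem_nil, or_false] at hi
    rcases hi with rfl | rfl <;> exact big_nonneg V E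
  · intro i hi
    simp only [inst, PInst.pools, List.mem_map] at hi
    obtain ⟨v, _, rfl⟩ := hi
    exact big_nonneg V E
  · intro i hi
    simp only [inst, PInst.outputs, List.mem_append, List.mem_map] at hi
    rcases hi with ⟨v, _, rfl⟩ | ⟨v, _, rfl⟩
    · norm_num
    · exact big_nonneg V E
  · intro a ha
    rcases mem_aI.1 ha with ⟨v, hv, rfl⟩ | ⟨v, hv, rfl⟩
    · exact big_nonneg V E
    · norm_num
  · intro a ha
    rcases mem_aJ.1 ha with ⟨p, hp, rfl | rfl⟩ | ⟨v, hv, rfl⟩
    · norm_num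
    · norm_num
    · exact big_nonneg V E

theorem countP_single {L : List ℕ} (hL : L.Nodup) (v : ℕ) (P : ℕ → Bool)
    (hP : ∀ w, P w = true → w = v) : L.countP P ≤ 1 := by
  refine (List.countP_mono_left (q := fun w => w == v) fun w _ h => by simpa using hP w h).trans ?_
  exact List.nodup_iff_count_le_one.1 hL _

theorem inTwo_inst (hG : IsGraph V E) : InTwo (inst V E k) := by
  constructor
  · intro l _
    simp only [PInst.inDeg, inst, PInst.AI, aI, List.countP_append, List.countP_map]
    have h1 := countP_single hG.1 l.1 ((fun a : (ℕ × ℕ) × ℚ × ℚ => decide (a.1.2 = l.1)) ∘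
      fun v => ((0, v), 0, big V E)) (fun w h => by simpa using h)
    have h2 := countP_single hG.1 l.1 ((fun a : (ℕ × ℕ) × ℚ × ℚ => decide (a.1.2 = l.1)) ∘
      fun v => ((1, v), -1, 1)) (fun w h => by simpa using h)
    omega
  · intro j hj
    simp only [PInst.inDeg, inst, PInst.AJ, aJ, List.countP_append, List.countP_map,
      List.countP_flatMap]
    have hj' := List.mem_map_of_mem (f := Prod.fst) hj
    rw [outputs_fst, List.mem_append, List.mem_map, List.mem_map] at hj'
    rcases hj' with ⟨p, hp, h⟩ | ⟨v, hv, h⟩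
    · have h2 : V.countP ((fun a : (ℕ × ℕ) × ℚ × ℚ => decide (a.1.2 = j.1)) ∘
          fun v => ((v, 2 * v + 1), 0, big V E)) = 0 := by
        rw [List.countP_eq_zero]
        intro v _
        simp only [Function.comp_apply, decide_eq_true_eq]
        omega
      rw [h2, add_zero]
      have h3 : (E.zipIdx.map (List.countP (fun a : (ℕ × ℕ) × ℚ × ℚ => decide (a.1.2 = j.1)) ∘
          fun p => [((p.1.1, 2 * p.2), ((-((k + 1 : ℕ) : ℤ) : ℤ) : ℚ), 1),
            ((p.1.2, 2 * p.2), ((-((k + 1 : ℕ) : ℤ) : ℤ) : ℚ), 1)])) =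
          E.zipIdx.map (fun q => if q.2 = p.2 then 2 else 0) := by
        refine List.map_congr_left fun q _ => ?_
        simp only [Function.comp_apply, List.countP_cons, List.countP_nil, decide_eq_true_eq, zero_add]
        by_cases h : q.2 = p.2
        · rw [if_pos h, if_pos (by omega)]
        · rw [if_neg h, if_neg (by omega)]
      rw [h3]
      have h4 : ((E.zipIdx.map (fun q => if q.2 = p.2 then 2 else 0)).sum : ℕ) = 2 := by
        have h5 := zsum hp (fun _ => (2 : ℝ))
        have h6 : (((E.zipIdx.map (fun q => if q.2 = p.2 then 2 else 0)).sum : ℕ) : ℝ) =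
            (E.zipIdx.map (fun q => if q.2 = p.2 then (2 : ℝ) else 0)).sum := by
          rw [Nat.cast_list_sum, List.map_map]
          congr 1
          refine List.map_congr_left fun q _ => ?_
          simp only [Function.comp_apply]
          split_ifs <;> norm_num
        rw [h5] at h6
        exact_mod_cast h6
      omega
    · have h1 := countP_single hG.1 v ((fun a : (ℕ × ℕ) × ℚ × ℚ => decide (a.1.2 = j.1)) ∘
        fun v => ((v, 2 * v + 1), 0, big V E)) (fun w h' => by
          simp only [Function.comp_apply, decide_eq_true_eq] at h'; omega)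
      have h3 : (E.zipIdx.map (List.countP (fun a : (ℕ × ℕ) × ℚ × ℚ => decide (a.1.2 = j.1)) ∘
          fun p => [((p.1.1, 2 * p.2), ((-((k + 1 : ℕ) : ℤ) : ℤ) : ℚ), 1),
            ((p.1.2, 2 * p.2), ((-((k + 1 : ℕ) : ℤ) : ℤ) : ℚ), 1)])).sum = 0 := by
        rw [List.sum_eq_zero_iff]
        intro x hx
        obtain ⟨q, _, rfl⟩ := List.mem_map.1 hx
        simp only [Function.comp_apply, List.countP_cons, List.countP_nil, decide_eq_true_eq, zero_add]
        rw [if_neg (by omega), add_zero]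
      omega

/-! ### Sums of the instance -/

theorem inflow_aI (hG : IsGraph V E) (x : ℕ × ℕ → ℝ) {v : ℕ} (hv : v ∈ V) :
    inflow (aI V E) x v = x (0, v) + x (1, v) := by
  unfold inflow aI
  rw [List.map_append, List.sum_append, List.map_map, List.map_map]
  congr 1
  · exact sum_single hG.1 hv (fun w => x (0, w))
  · exact sum_single hG.1 hv (fun w => x (1, w))

theorem outflow_aI0 (x : ℕ × ℕ → ℝ) :
    outflow (aI V E) x 0 = (V.map (fun v => x (0, v))).sum := by
  unfold outflow aI
  rw [List.map_append, List.sum_append, List.map_map, List.map_map,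
    sum_none V ((fun a : (ℕ × ℕ) × ℚ × ℚ => if a.1.1 = 0 then x a.1 else 0) ∘
      fun v => ((1, v), -1, 1)) (fun v _ => by simp), add_zero]
  congr 1

theorem outflow_aI1 (x : ℕ × ℕ → ℝ) :
    outflow (aI V E) x 1 = (V.map (fun v => x (1, v))).sum := by
  unfold outflow aI
  rw [List.map_append, List.sum_append, List.map_map, List.map_map]
  rw [sum_none V _ (fun v _ => by simp), zero_add]
  congr 1

theorem quality_aI (hG : IsGraph V E) (x : ℕ × ℕ → ℝ) {v : ℕ} (hv : v ∈ V) :
    ((aI V E).map (fun a => if a.1.2 = v then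
      (((inst V E k).inputs).map (fun i => if i.1 = a.1.1 then (i.2.2 : ℝ) * x a.1 else 0)).sum
        else 0)).sum = x (1, v) := by
  unfold aI
  rw [List.map_append, List.sum_append, List.map_map, List.map_map]
  rw [sum_none V _ (fun v _ => by simp [inst, PInst.inputs]), zero_add]
  rw [← sum_single hG.1 hv (fun w => x (1, w))]
  congr 1
  refine List.map_congr_left fun w _ => ?_
  simp [inst, PInst.inputs]

theorem cost_aI (x : ℕ × ℕ → ℝ) : cost (aI V E) x = -(V.map (fun v => x (1, v))).sum := by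
  unfold cost aI
  rw [List.map_append, List.sum_append, List.map_map, List.map_map]
  rw [sum_none V _ (fun v _ => by simp), zero_add, ← sum_neg']
  congr 1
  refine List.map_congr_left fun w _ => ?_
  simp

theorem inflow_aJ0 (y : ℕ × ℕ → ℝ) {p : (ℕ × ℕ) × ℕ} (hp : p ∈ E.zipIdx) :
    inflow (aJ V E k) y (2 * p.2) = y (p.1.1, 2 * p.2) + y (p.1.2, 2 * p.2) := by
  unfold inflow aJ
  rw [List.map_append, List.sum_append, List.map_map, List.map_flatMap]
  rw [sum_none V _ (fun v _ => by simp only [Function.comp_apply]; rw [if_neg (by omega)]), add_zero,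
    sum_fm]
  rw [← zsum hp (fun q => y (q.1.1, 2 * q.2) + y (q.1.2, 2 * q.2))]
  congr 1
  refine List.map_congr_left fun q _ => ?_
  simp only [List.map_cons, List.map_nil, List.sum_cons, List.sum_nil, add_zero]
  by_cases h : q.2 = p.2
  · rw [if_pos h, if_pos (by omega)]
    rw [if_pos (by omega)]
  · rw [if_neg h, if_neg (by omega), if_neg (by omega), add_zero]

theorem qual_aJ0 (y : ℕ × ℕ → ℝ) (r : ℕ → ℝ) {p : (ℕ × ℕ) × ℕ} (hp : p ∈ E.zipIdx) :
    ((aJ V E k).map (fun a => if a.1.2 = 2 * p.2 then r a.1.1 * y a.1 else 0)).sum =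
      r p.1.1 * y (p.1.1, 2 * p.2) + r p.1.2 * y (p.1.2, 2 * p.2) := by
  have h := inflow_aJ0 (k := k) (V := V) (fun a => r a.1 * y a) hp
  exact h

theorem inflow_aJ1 (hG : IsGraph V E) (y : ℕ × ℕ → ℝ) {v : ℕ} (hv : v ∈ V) :
    inflow (aJ V E k) y (2 * v + 1) = y (v, 2 * v + 1) := by
  unfold inflow aJ
  rw [List.map_append, List.sum_append, List.map_map, List.map_flatMap, sum_fm]
  rw [sum_none E.zipIdx _ (fun q _ => by
    simp only [List.map_cons, List.map_nil, List.sum_cons, List.sum_nil, add_zero]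
    rw [if_neg (by omega), if_neg (by omega), add_zero]), zero_add]
  rw [← sum_single hG.1 hv (fun w => y (w, 2 * w + 1))]
  congr 1
  refine List.map_congr_left fun w _ => ?_
  simp only [Function.comp_apply]
  by_cases h : w = v
  · rw [if_pos h, if_pos (by omega)]
  · rw [if_neg h, if_neg (by omega)]

theorem outflow_aJ (hG : IsGraph V E) (y : ℕ × ℕ → ℝ) {v : ℕ} (hv : v ∈ V) :
    outflow (aJ V E k) y v = (E.zipIdx.map (fun q => (if q.1.1 = v then y (v, 2 * q.2) else 0) +
      (if q.1.2 = v then y (v, 2 * q.2) else 0))).sum + y (v, 2 * v + 1) := by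
  unfold outflow aJ
  rw [List.map_append, List.sum_append, List.map_map, List.map_flatMap, sum_fm]
  congr 1
  · congr 1
    refine List.map_congr_left fun q _ => ?_
    simp only [List.map_cons, List.map_nil, List.sum_cons, List.sum_nil, add_zero]
    congr 1
    · by_cases h : q.1.1 = v
      · rw [if_pos h, if_pos h, h]
      · rw [if_neg h, if_neg h]
    · by_cases h : q.1.2 = v
      · rw [if_pos h, if_pos h, h]
      · rw [if_neg h, if_neg h]
  · exact sum_single hG.1 hv (fun w => y (w, 2 * w + 1))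

theorem cost_aJ (y : ℕ × ℕ → ℝ) : cost (aJ V E k) y =
    -((k : ℝ) + 1) * (E.zipIdx.map (fun q => y (q.1.1, 2 * q.2) + y (q.1.2, 2 * q.2))).sum := by
  unfold cost aJ
  rw [List.map_append, List.sum_append, List.map_map, List.map_flatMap, sum_fm]
  rw [sum_none V _ (fun v _ => by simp), add_zero, ← List.sum_map_mul_left]
  congr 1
  refine List.map_congr_left fun q _ => ?_
  simp only [List.map_cons, List.map_nil, List.sum_cons, List.sum_nil, add_zero]
  push_cast
  ring

end Pool.Agent.X130.Pl
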