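import Mathlib
import Pool.Agent.X130.Pl.InRed

set_option autoImplicit false

/-!
# In-degrees at most two: correctness and hardness
-/

namespace Pool.Agent.X130.Pl

open Pool.Agent.NPC Pool.Agent.NPC.H634R2

variable {V : List ℕ} {E : List (ℕ × ℕ)} {k : ℕ}

theorem aI_eq : (inst V E k).AI = aI V E := rfl

theorem aJ_eq : (inst V E k).AJ = aJ V E k := rfl

theorem bnd_eq (hk : k ≤ V.length) :
    ((bnd V E k : ℚ) : ℝ) = -(((k : ℝ) + 1) * E.length + (V.length - k)) := by
  unfold bnd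
  push_cast [Nat.cast_sub hk]
  ring

theorem len_z (E : List (ℕ × ℕ)) : E.zipIdx.length = E.length := List.length_zipIdx

theorem in_bwd (hG : IsGraph V E) (hk : k ≤ V.length) {x y : ℕ × ℕ → ℝ} {p : ℕ → ℝ}
    (hf : Feasible (inst V E k) x y p)
    (hc : cost (inst V E k).AI x + cost (inst V E k).AJ y ≤ ((bnd V E k : ℚ) : ℝ)) :
    VC ((V, E), k) := by
  classical
  obtain ⟨h1, h2, h3, h4, h5, h6, h7⟩ := hf
  rw [aI_eq, aJ_eq] at *
  have hpool : ∀ v ∈ V, (v, big V E) ∈ (inst V E k).pools := fun v hv => List.mem_map.2 ⟨v, hv, rfl⟩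
  have hout0 : ∀ q ∈ E.zipIdx, (2 * q.2, (1 : ℚ), (0 : ℚ)) ∈ (inst V E k).outputs := fun q hq =>
    List.mem_append_left _ (List.mem_map.2 ⟨q, hq, rfl⟩)
  have hx1 : ∀ v ∈ V, 0 ≤ x (1, v) ∧ x (1, v) ≤ 1 := by
    intro v hv
    have := h1 ((1, v), -1, 1) (mem_aI.2 (Or.inr ⟨v, hv, rfl⟩))
    simpa using this
  have hy : ∀ a ∈ aJ V E k, 0 ≤ y a.1 := fun a ha => (h2 a ha).1
  have hyL : ∀ q ∈ E.zipIdx, 0 ≤ y (q.1.1, 2 * q.2) := fun q hq =>
    hy ((q.1.1, 2 * q.2), _, _) (mem_aJ.2 (Or.inl ⟨q, hq, Or.inl rfl⟩))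
  have hyR : ∀ q ∈ E.zipIdx, 0 ≤ y (q.1.2, 2 * q.2) := fun q hq =>
    hy ((q.1.2, 2 * q.2), _, _) (mem_aJ.2 (Or.inl ⟨q, hq, Or.inr rfl⟩))
  have hq : ∀ v ∈ V, x (1, v) = p v * outflow (aJ V E k) y v := by
    intro v hv
    have := h6 _ (hpool v hv)
    simp only at this
    rwa [quality_aI hG x hv] at this
  -- the flow on an arc is at most the total flow leaving its tail
  have hle : ∀ a ∈ aJ V E k, y a.1 ≤ outflow (aJ V E k) y a.1.1 := by
    intro a ha
    have := mem_le_sum (aJ V E k) (fun b => if b.1.1 = a.1.1 then y b.1 else 0) (by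
      intro b hb
      split_ifs
      · exact hy b hb
      · exact le_rfl) ha
    simpa [outflow] using this
  have hpy : ∀ a ∈ aJ V E k, a.1.1 ∈ V → 0 ≤ p a.1.1 * y a.1 := by
    intro a ha hv
    rcases (hy a ha).eq_or_lt with h | h
    · rw [← h, mul_zero]
    · have hpos : 0 < outflow (aJ V E k) y a.1.1 := h.trans_le (hle a ha)
      have h8 := hq _ hv
      have h9 : 0 ≤ p a.1.1 := by
        by_contra hcon
        push Not at hcon
        have := mul_neg_of_neg_of_pos hcon hpos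
        have := (hx1 _ hv).1
        linarith
      exact mul_nonneg h9 h.le
  -- a vertex with flow to an edge is clean
  have hclean : ∀ q ∈ E.zipIdx, ∀ v ∈ V, (v = q.1.1 ∨ v = q.1.2) → 0 < y (v, 2 * q.2) →
      x (1, v) = 0 := by
    intro q hq' v hv hvq hpos
    have h8 := h7 _ (hout0 q hq')
    simp only at h8
    rw [qual_aJ0 y p hq'] at h8
    have hG' := hG.2.1 _ (zmem hq')
    have h9 := hpy ((q.1.1, 2 * q.2), _, _) (mem_aJ.2 (Or.inl ⟨q, hq', Or.inl rfl⟩)) hG'.1
    have h10 := hpy ((q.1.2, 2 * q.2), _, _) (mem_aJ.2 (Or.inl ⟨q, hq', Or.inr rfl⟩)) hG'.2.1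
    simp only at h9 h10
    have h11 : p v * y (v, 2 * q.2) = 0 := by
      push_cast at h8
      rcases hvq with rfl | rfl <;> linarith
    have h12 : p v = 0 := by
      rcases mul_eq_zero.1 h11 with h | h
      · exact h
      · linarith
    rw [hq v hv, h12, zero_mul]
  set C : Finset ℕ := V.toFinset.filter (fun v => ∃ q ∈ E.zipIdx, (v = q.1.1 ∨ v = q.1.2) ∧
    0 < y (v, 2 * q.2)) with hC
  have hCV : ∀ v ∈ C, v ∈ V := fun v hv => List.mem_toFinset.1 (Finset.mem_filter.1 hv).1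
  have hCx : ∀ v ∈ C, x (1, v) = 0 := by
    intro v hv
    obtain ⟨q, hq', hvq, hpos⟩ := (Finset.mem_filter.1 hv).2
    exact hclean q hq' v (hCV v hv) hvq hpos
  have hsumx : (V.map (fun v => x (1, v))).sum ≤ (V.length : ℝ) - C.card := by
    rw [← sum_notin hG.1 C hCV]
    refine sum_le_sum' _ _ _ fun v hv => ?_
    split_ifs with h
    · exact (hCx v h).le
    · exact (hx1 v hv).2
  have hF : ∀ q ∈ E.zipIdx, y (q.1.1, 2 * q.2) + y (q.1.2, 2 * q.2) ≤ 1 := by
    intro q hq'
    have := h5 _ (hout0 q hq')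
    simp only at this
    rw [inflow_aJ0 y hq'] at this
    simpa using this
  rw [cost_aI, cost_aJ, bnd_eq hk] at hc
  have hk0 : (0 : ℝ) ≤ k := Nat.cast_nonneg k
  have hcov : ∀ e ∈ E, e.1 ∈ C ∨ e.2 ∈ C := by
    intro e he
    by_contra hcon
    push Not at hcon
    obtain ⟨q, hq', rfl⟩ := zex he
    have hG' := hG.2.1 _ he
    have h8 : y (q.1.1, 2 * q.2) = 0 := by
      by_contra h
      exact hcon.1 (Finset.mem_filter.2 ⟨List.mem_toFinset.2 hG'.1, q, hq', Or.inl rfl,
        lt_of_le_of_ne (hyL q hq') (Ne.symm h)⟩)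
    have h9 : y (q.1.2, 2 * q.2) = 0 := by
      by_contra h
      exact hcon.2 (Finset.mem_filter.2 ⟨List.mem_toFinset.2 hG'.2.1, q, hq', Or.inr rfl,
        lt_of_le_of_ne (hyR q hq') (Ne.symm h)⟩)
    have h10 := sum_le_pred E.zipIdx (fun q => y (q.1.1, 2 * q.2) + y (q.1.2, 2 * q.2)) hF hq'
      (by rw [h8, h9, add_zero])
    rw [len_z] at h10
    have h11 := mul_le_mul_of_nonneg_left h10 (by linarith : (0 : ℝ) ≤ (k : ℝ) + 1)
    have h12 : (0 : ℝ) ≤ C.card := Nat.cast_nonneg _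
    linarith
  refine ⟨C, hCV, ?_, hcov⟩
  have h10 : (E.zipIdx.map (fun q => y (q.1.1, 2 * q.2) + y (q.1.2, 2 * q.2))).sum ≤ E.length := by
    have := sum_le_sum' E.zipIdx _ (fun _ => (1 : ℝ)) hF
    simpa using this
  have h11 := mul_le_mul_of_nonneg_left h10 (by linarith : (0 : ℝ) ≤ (k : ℝ) + 1)
  have h12 : (C.card : ℝ) ≤ k := by linarith
  exact_mod_cast h12

open Classical in
/-- the endpoint to which an edge is assigned -/
noncomputable def asg (C : Finset ℕ) (e : ℕ × ℕ) : ℕ := if e.1 ∈ C then e.1 else e.2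

theorem asg_mem {C : Finset ℕ} {e : ℕ × ℕ} (h : e.1 ∈ C ∨ e.2 ∈ C) : asg C e ∈ C := by
  unfold asg
  split_ifs with h1
  · exact h1
  · exact h.resolve_left h1

theorem asg_split {C : Finset ℕ} {e : ℕ × ℕ} (hne : e.1 ≠ e.2) (v : ℕ) (c : ℝ) :
    (if e.1 = v then (if asg C e = v then c else 0) else 0) +
      (if e.2 = v then (if asg C e = v then c else 0) else 0) = if asg C e = v then c else 0 := by
  by_cases h1 : e.1 = v
  · have h2 : e.2 ≠ v := fun h => hne (h1.trans h.symm)
    rw [if_pos h1, if_neg h2, add_zero]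
  · rw [if_neg h1, zero_add]
    by_cases h2 : e.2 = v
    · rw [if_pos h2]
    · rw [if_neg h2, if_neg]
      unfold asg
      split_ifs
      · exact h1
      · exact h2

theorem in_fwd (hG : IsGraph V E) (hk : k ≤ V.length) (h : VC ((V, E), k)) :
    ∃ x y p, Feasible (inst V E k) x y p ∧
      cost (inst V E k).AI x + cost (inst V E k).AJ y ≤ ((bnd V E k : ℚ) : ℝ) := by
  classical
  obtain ⟨C, hCV, hCk, hcov⟩ := h
  simp only at hCV hCk hcov
  set cnt : ℕ → ℝ := fun v => (E.zipIdx.map (fun q => if asg C q.1 = v then (1 : ℝ) else 0)).sum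
    with hcnt
  have hcnt0 : ∀ v, 0 ≤ cnt v := fun v => List.sum_nonneg (by
    intro x hx
    obtain ⟨q, _, rfl⟩ := List.mem_map.1 hx
    split_ifs <;> norm_num)
  have hcntE : ∀ v, cnt v ≤ E.length := fun v => by
    have := sum_le_sum' E.zipIdx (fun q => if asg C q.1 = v then (1 : ℝ) else 0) (fun _ => (1 : ℝ))
      (fun q _ => by split_ifs <;> norm_num)
    simpa using this
  have hcntC : ∀ v, v ∉ C → cnt v = 0 := fun v hv => sum_none _ _ fun q hq => by
    rw [if_neg]
    intro h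
    exact hv (h ▸ asg_mem (hcov _ (zmem hq)))
  set x : ℕ × ℕ → ℝ := fun a => if a.1 = 0 then cnt a.2 else (if a.2 ∈ C then 0 else 1) with hx
  set y : ℕ × ℕ → ℝ := fun a => if a.2 % 2 = 1 then (if a.1 ∈ C then 0 else 1) else
    (if ∃ q ∈ E.zipIdx, 2 * q.2 = a.2 ∧ asg C q.1 = a.1 then 1 else 0) with hy
  set p : ℕ → ℝ := fun v => if v ∈ C then 0 else 1 with hp
  have x0 : ∀ v, x (0, v) = cnt v := fun v => by simp [hx]
  have x1 : ∀ v, x (1, v) = if v ∈ C then 0 else 1 := fun v => by simp [hx]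
  have y1 : ∀ v, y (v, 2 * v + 1) = if v ∈ C then 0 else 1 := fun v => by
    simp only [hy]
    rw [if_pos (by omega)]
  have y0 : ∀ v, ∀ q ∈ E.zipIdx, y (v, 2 * q.2) = if asg C q.1 = v then 1 else 0 := fun v q hq => by
    simp only [hy]
    rw [if_neg (by omega)]
    by_cases h : asg C q.1 = v
    · rw [if_pos h, if_pos ⟨q, hq, rfl, h⟩]
    · rw [if_neg h, if_neg]
      rintro ⟨q', hq', h1, h2⟩
      rw [zinj hq' hq (by omega)] at h2
      exact h h2
  have hbig := big_ge V E
  have hVE : (0 : ℝ) ≤ V.length * E.length := by positivity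
  have hV0 : (0 : ℝ) ≤ V.length := Nat.cast_nonneg _
  have hE0 : (0 : ℝ) ≤ E.length := Nat.cast_nonneg _
  have hout : ∀ v ∈ V, outflow (aJ V E k) y v = cnt v + if v ∈ C then 0 else 1 := by
    intro v hv
    rw [outflow_aJ hG y hv, y1]
    congr 1
    simp only [hcnt]
    congr 1
    refine List.map_congr_left fun q hq => ?_
    rw [y0 v q hq]
    exact asg_split (hG.2.1 _ (zmem hq)).2.2 v 1
  have hin : ∀ v ∈ V, inflow (aI V E) x v = cnt v + if v ∈ C then 0 else 1 := by
    intro v hv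
    rw [inflow_aI hG x hv, x0, x1]
  refine ⟨x, y, p, ⟨?_, ?_, ?_, ?_, ?_, ?_, ?_⟩, ?_⟩
  · intro a ha
    rcases mem_aI.1 ha with ⟨v, hv, rfl⟩ | ⟨v, hv, rfl⟩
    · simp only
      rw [x0]
      exact ⟨hcnt0 v, (hcntE v).trans (by linarith)⟩
    · simp only
      rw [x1]
      split_ifs <;> norm_num
  · intro a ha
    rcases mem_aJ.1 ha with ⟨q, hq, rfl | rfl⟩ | ⟨v, hv, rfl⟩
    · simp only
      rw [y0 _ q hq]
      split_ifs <;> norm_num
    · simp only
      rw [y0 _ q hq]
      split_ifs <;> norm_num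
    · simp only
      rw [y1]
      split_ifs
      · exact ⟨le_rfl, by linarith⟩
      · exact ⟨zero_le_one, by linarith⟩
  · intro i hi
    simp only [inst, PInst.inputs, List.mem_cons, List.not_mem_nil, or_false] at hi
    rw [aI_eq]
    rcases hi with rfl | rfl
    · simp only
      rw [outflow_aI0]
      have h1 : (V.map (fun v => x (0, v))).sum ≤ (V.map (fun _ => (E.length : ℝ))).sum :=
        sum_le_sum' _ _ _ fun v _ => by rw [x0]; exact hcntE v
      simp only [List.map_const', List.sum_replicate, nsmul_eq_mul] at h1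
      linarith
    · simp only
      rw [outflow_aI1]
      have h1 : (V.map (fun v => x (1, v))).sum ≤ (V.map (fun _ => (1 : ℝ))).sum :=
        sum_le_sum' _ _ _ fun v _ => by rw [x1]; split_ifs <;> norm_num
      simp only [List.map_const', List.sum_replicate, nsmul_eq_mul, mul_one] at h1
      linarith
  · intro l hl
    simp only [inst, PInst.pools, List.mem_map] at hl
    obtain ⟨v, hv, rfl⟩ := hl
    rw [aI_eq, aJ_eq]
    simp only
    rw [hin v hv, hout v hv]
    refine ⟨?_, rfl⟩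
    have := hcntE v
    split_ifs <;> linarith
  · intro j hj
    simp only [inst, PInst.outputs, List.mem_append, List.mem_map] at hj
    rw [aJ_eq]
    rcases hj with ⟨q, hq, rfl⟩ | ⟨v, hv, rfl⟩
    · simp only
      rw [inflow_aJ0 y hq, y0 _ q hq, y0 _ q hq]
      have hne := (hG.2.1 _ (zmem hq)).2.2
      by_cases h1 : asg C q.1 = q.1.1
      · have h2 : asg C q.1 ≠ q.1.2 := fun h => hne (h1.symm.trans h)
        rw [if_pos h1, if_neg h2]
        norm_num
      · rw [if_neg h1]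
        split_ifs <;> norm_num
    · simp only
      rw [inflow_aJ1 hG y hv, y1]
      split_ifs <;> linarith
  · intro l hl
    simp only [inst, PInst.pools, List.mem_map] at hl
    obtain ⟨v, hv, rfl⟩ := hl
    rw [aI_eq, aJ_eq]
    simp only
    rw [quality_aI hG x hv, hout v hv, x1]
    simp only [hp]
    split_ifs with h
    · rw [zero_mul]
    · rw [hcntC v h]
      norm_num
  · intro j hj
    simp only [inst, PInst.outputs, List.mem_append, List.mem_map] at hj
    rw [aJ_eq]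
    rcases hj with ⟨q, hq, rfl⟩ | ⟨v, hv, rfl⟩
    · simp only
      rw [qual_aJ0 y p hq, y0 _ q hq, y0 _ q hq]
      have hmem := asg_mem (hcov _ (zmem hq))
      have h1 : p q.1.1 * (if asg C q.1 = q.1.1 then (1 : ℝ) else 0) = 0 := by
        split_ifs with h
        · rw [h] at hmem
          simp [hp, hmem]
        · simp
      have h2 : p q.1.2 * (if asg C q.1 = q.1.2 then (1 : ℝ) else 0) = 0 := by
        split_ifs with h
        · rw [h] at hmem
          simp [hp, hmem]
        · simp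
      rw [h1, h2]
      simp
    · simp only
      have h0 : ((aJ V E k).map (fun a => if a.1.2 = 2 * v + 1 then p a.1.1 * y a.1 else 0)).sum =
          p v * y (v, 2 * v + 1) := inflow_aJ1 hG (fun a => p a.1 * y a) hv
      rw [h0, inflow_aJ1 hG y hv, y1]
      simp only [hp]
      split_ifs <;> norm_num
  · rw [aI_eq, aJ_eq, cost_aI, cost_aJ, bnd_eq hk]
    have h1 : (V.map (fun v => x (1, v))).sum = (V.length : ℝ) - C.card := by
      rw [← sum_notin hG.1 C hCV]
      exact congrArg List.sum (List.map_congr_left fun v _ => x1 v)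
    have h2 : (E.zipIdx.map (fun q => y (q.1.1, 2 * q.2) + y (q.1.2, 2 * q.2))).sum = E.length := by
      have h3 : (E.zipIdx.map (fun q => y (q.1.1, 2 * q.2) + y (q.1.2, 2 * q.2))) =
          E.zipIdx.map (fun _ => (1 : ℝ)) := by
        refine List.map_congr_left fun q hq => ?_
        rw [y0 _ q hq, y0 _ q hq]
        have hne := (hG.2.1 _ (zmem hq)).2.2
        by_cases h1 : asg C q.1 = q.1.1
        · have h2 : asg C q.1 ≠ q.1.2 := fun h => hne (h1.symm.trans h)
          rw [if_pos h1, if_neg h2]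
          norm_num
        · have h2 : asg C q.1 = q.1.2 := by
            unfold asg at h1 ⊢
            split_ifs at h1 ⊢ with h3
            · exact absurd rfl h1
            · rfl
          rw [if_neg h1, if_pos h2]
          norm_num
      rw [h3]
      simp
    rw [h1, h2]
    have h3 : (C.card : ℝ) ≤ k := by exact_mod_cast hCk
    linarith

/-! ### Polynomial time -/

theorem natCast_rat {α : Type} [TEnc α] {f : α → ℕ} (hf : NPC.Poly f) :
    NPC.Poly (fun a => ((f a : ℕ) : ℚ)) :=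
  NPC.Poly.of_toT ((NPC.Poly.toT' (NPC.Poly.pair (NPC.Poly.natCast_int hf)
    (NPC.Poly.const (1 : ℕ)))).congr fun a => by
    change toT (((f a : ℕ) : ℤ), (1 : ℕ)) = toT (((f a : ℕ) : ℚ).num, ((f a : ℕ) : ℚ).den)
    rw [Rat.num_natCast, Rat.den_natCast])

theorem negCast_int {α : Type} [TEnc α] {f : α → ℕ} (hf : NPC.Poly f) :
    NPC.Poly (fun a => -((f a : ℕ) : ℤ)) :=
  NPC.Poly.of_toT ((NPC.Poly.toT' (NPC.Poly.pair (NPC.Poly.decide_lt (NPC.Poly.const 0) hf) hf)).congr
    fun a => by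
    change toT (decide (0 < f a), f a) = toT (decide (-((f a : ℕ) : ℤ) < 0), (-((f a : ℕ) : ℤ)).natAbs)
    have h1 : decide (0 < f a) = decide (-((f a : ℕ) : ℤ) < 0) := by
      rw [decide_eq_decide]
      omega
    have h2 : (-((f a : ℕ) : ℤ)).natAbs = f a := by omega
    rw [h1, h2])

theorem intCast_rat {α : Type} [TEnc α] {f : α → ℤ} (hf : NPC.Poly f) :
    NPC.Poly (fun a => ((f a : ℤ) : ℚ)) :=
  NPC.Poly.of_toT ((NPC.Poly.toT' (NPC.Poly.pair hf (NPC.Poly.const (1 : ℕ)))).congr fun a => by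
    change toT (f a, (1 : ℕ)) = toT (((f a : ℤ) : ℚ).num, ((f a : ℤ) : ℚ).den)
    rw [Rat.num_intCast, Rat.den_intCast])

attribute [fun_prop] natCast_rat negCast_int intCast_rat

theorem big_poly {α : Type} [TEnc α] {V : α → List ℕ} {E : α → List (ℕ × ℕ)} (hV : NPC.Poly V)
    (hE : NPC.Poly E) : NPC.Poly (fun a => big (V a) (E a)) := by
  unfold big
  fun_prop

attribute [fun_prop] big_poly

theorem redIn_poly : NPC.Poly redIn := by
  unfold redIn inst bnd aI aJ
  fun_prop

theorem in_hard : NPHardP (Pooling InTwo) := by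
  refine (hardPr_VC.trans (Pr' := fun _ => True) redIn_poly (fun _ _ => trivial) ?_).toHardI.toNPHardP
  rintro ⟨⟨V, E⟩, k⟩ ⟨hG, hk⟩
  simp only at hG hk
  constructor
  · intro h
    exact ⟨valid_inst hG, inTwo_inst hG, in_fwd hG hk h⟩
  · rintro ⟨-, -, x, y, p, hf, hc⟩
    exact in_bwd hG hk hf hc

end Pool.Agent.X130.Pl
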