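import Mathlib
import Pool.Agent.X130.Pl.InMain

set_option autoImplicit false

/-!
# Out-degrees at most two: reduction from vertex cover
-/

namespace Pool.Agent.X130.Pl

open Pool.Agent.NPC Pool.Agent.NPC.H634R2

namespace Out

/-- arcs from the inputs -/
def aI (V : List ℕ) (E : List (ℕ × ℕ)) (k : ℕ) : List ((ℕ × ℕ) × ℚ × ℚ) :=
  V.map (fun v => ((2 * v, v), 0, 1)) ++
    E.zipIdx.flatMap (fun p => [((2 * p.2 + 1, p.1.1), ((-((k + 1 : ℕ) : ℤ) : ℤ) : ℚ), 1),
      ((2 * p.2 + 1, p.1.2), ((-((k + 1 : ℕ) : ℤ) : ℤ) : ℚ), 1)])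

/-- arcs to the outputs -/
def aJ (V : List ℕ) (E : List (ℕ × ℕ)) : List ((ℕ × ℕ) × ℚ × ℚ) :=
  V.map (fun v => ((v, 2 * v), -1, 1)) ++ V.map (fun v => ((v, 2 * v + 1), 0, big V E))

/-- the inputs -/
def ins (V : List ℕ) (E : List (ℕ × ℕ)) : List (ℕ × ℚ × ℚ) :=
  V.map (fun v => (2 * v, 1, 0)) ++ E.zipIdx.map (fun p => (2 * p.2 + 1, 1, 1))

/-- the instance -/
def inst (V : List ℕ) (E : List (ℕ × ℕ)) (k : ℕ) : PInst :=
  ((ins V E, V.map (fun v => (v, big V E)),
    V.map (fun v => (2 * v, 1, 0)) ++ V.map (fun v => (2 * v + 1, big V E, 1))),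
    (aI V E k, aJ V E))

/-- the reduction -/
def redOut (I : (List ℕ × List (ℕ × ℕ)) × ℕ) : PInst × ℚ :=
  (inst I.1.1 I.1.2 I.2, bnd I.1.1 I.1.2 I.2)

variable {V : List ℕ} {E : List (ℕ × ℕ)} {k : ℕ}

theorem mem_aI {a : (ℕ × ℕ) × ℚ × ℚ} : a ∈ aI V E k ↔
    (∃ v ∈ V, a = ((2 * v, v), 0, 1)) ∨
    ∃ p ∈ E.zipIdx, (a = ((2 * p.2 + 1, p.1.1), ((-((k + 1 : ℕ) : ℤ) : ℤ) : ℚ), 1) ∨
      a = ((2 * p.2 + 1, p.1.2), ((-((k + 1 : ℕ) : ℤ) : ℤ) : ℚ), 1)) := by
  unfold aI
  simp only [List.mem_append, List.mem_flatMap, List.mem_cons, List.not_mem_nil, or_false,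
    List.mem_map, eq_comm]

theorem mem_aJ {a : (ℕ × ℕ) × ℚ × ℚ} : a ∈ aJ V E ↔
    (∃ v ∈ V, a = ((v, 2 * v), -1, 1)) ∨ ∃ v ∈ V, a = ((v, 2 * v + 1), 0, big V E) := by
  unfold aJ
  simp only [List.mem_append, List.mem_map, eq_comm]

theorem aI_eq : (inst V E k).AI = aI V E k := rfl

theorem aJ_eq : (inst V E k).AJ = aJ V E := rfl

theorem inputs_eq : (inst V E k).inputs = ins V E := rfl

theorem valid_inst (hG : IsGraph V E) : (inst V E k).Valid := by
  have hpools : (inst V E k).pools.map Prod.fst = V := by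
    simp only [inst, PInst.pools, List.map_map]
    exact List.map_id' V
  have hin : (inst V E k).inputs.map Prod.fst =
      V.map (fun v => 2 * v) ++ E.zipIdx.map (fun p => 2 * p.2 + 1) := by
    simp only [inst, ins, PInst.inputs, List.map_append, List.map_map]
    rfl
  have hout : (inst V E k).outputs.map Prod.fst =
      V.map (fun v => 2 * v) ++ V.map (fun v => 2 * v + 1) := by
    simp only [inst, PInst.outputs, List.map_append, List.map_map]
    rfl
  refine ⟨?_, ?_, ?_, ?_, ?_, ?_, ?_, ?_, ?_, ?_, ?_, ?_⟩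
  · rw [hin, List.nodup_append']
    refine ⟨hG.1.map (fun a b (h : 2 * a = 2 * b) => by omega), ?_, ?_⟩
    · have h2 := (zsnd E).map (f := fun j : ℕ => 2 * j + 1)
        (fun a b (hab : 2 * a + 1 = 2 * b + 1) => by omega)
      rwa [List.map_map] at h2
    · intro x hx hx'
      simp only [List.mem_map] at hx hx'
      obtain ⟨a, _, ha⟩ := hx
      obtain ⟨b, _, hb⟩ := hx'
      omega
  · rw [hpools]; exact hG.1
  · rw [hout, List.nodup_append']
    refine ⟨hG.1.map (fun a b (h : 2 * a = 2 * b) => by omega),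
      hG.1.map (fun a b (h : 2 * a + 1 = 2 * b + 1) => by omega), ?_⟩
    intro x hx hx'
    simp only [List.mem_map] at hx hx'
    obtain ⟨a, _, ha⟩ := hx
    obtain ⟨b, _, hb⟩ := hx'
    omega
  · simp only [inst, PInst.AI, aI, List.map_append, List.map_map, List.map_flatMap, List.map_cons,
      List.map_nil]
    rw [List.nodup_append']
    refine ⟨hG.1.map (fun a b h => by simp only [Function.comp_apply, Prod.mk.injEq] at h; exact h.2),
      ?_, ?_⟩
    · rw [List.nodup_flatMap]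
      refine ⟨fun p hp => ?_, ?_⟩
      · have := (hG.2.1 _ (zmem hp)).2.2
        simpa using this
      · refine ((List.pairwise_map.1 (zsnd E))).imp ?_
        intro p q hpq a ha hb
        simp only [List.mem_cons, List.not_mem_nil, or_false] at ha hb
        rcases ha with rfl | rfl <;> rcases hb with hb | hb <;> simp only [Prod.mk.injEq] at hb <;> omega
    · intro x hx hx'
      simp only [List.mem_map, List.mem_flatMap, List.mem_cons, List.not_mem_nil, or_false,
        Function.comp_apply] at hx hx'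
      obtain ⟨p, _, hp⟩ := hx'
      obtain ⟨b, _, rfl⟩ := hx
      simp only [Prod.mk.injEq] at hp
      omega
  · simp only [inst, PInst.AJ, aJ, List.map_append, List.map_map]
    rw [List.nodup_append']
    refine ⟨hG.1.map (fun a b h => by simp only [Function.comp_apply, Prod.mk.injEq] at h; exact h.1),
      hG.1.map (fun a b h => by simp only [Function.comp_apply, Prod.mk.injEq] at h; exact h.1), ?_⟩
    intro x hx hx'
    simp only [List.mem_map, Function.comp_apply] at hx hx'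
    obtain ⟨a, _, rfl⟩ := hx
    obtain ⟨b, _, hb⟩ := hx'
    simp only [Prod.mk.injEq] at hb
    omega
  · intro a ha
    rw [hin, hpools]
    rcases mem_aI.1 ha with ⟨v, hv, rfl⟩ | ⟨p, hp, rfl | rfl⟩
    · exact ⟨List.mem_append_left _ (List.mem_map.2 ⟨v, hv, rfl⟩), hv⟩
    · exact ⟨List.mem_append_right _ (List.mem_map.2 ⟨p, hp, rfl⟩), (hG.2.1 _ (zmem hp)).1⟩
    · exact ⟨List.mem_append_right _ (List.mem_map.2 ⟨p, hp, rfl⟩), (hG.2.1 _ (zmem hp)).2.1⟩
  · intro a ha
    rw [hpools, hout]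
    rcases mem_aJ.1 ha with ⟨v, hv, rfl⟩ | ⟨v, hv, rfl⟩
    · exact ⟨hv, List.mem_append_left _ (List.mem_map.2 ⟨v, hv, rfl⟩)⟩
    · exact ⟨hv, List.mem_append_right _ (List.mem_map.2 ⟨v, hv, rfl⟩)⟩
  · intro i hi
    simp only [inst, ins, PInst.inputs, List.mem_append, List.mem_map] at hi
    rcases hi with ⟨v, _, rfl⟩ | ⟨v, _, rfl⟩ <;> norm_num
  · intro i hi
    simp only [inst, PInst.pools, List.mem_map] at hi
    obtain ⟨v, _, rfl⟩ := hi
    exact big_nonneg V E
  · intro i hi
    simp only [inst, PInst.outputs, List.mem_append, List.mem_map] at hi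
    rcases hi with ⟨v, _, rfl⟩ | ⟨v, _, rfl⟩
    · norm_num
    · exact big_nonneg V E
  · intro a ha
    rcases mem_aI.1 ha with ⟨v, hv, rfl⟩ | ⟨p, hp, rfl | rfl⟩ <;> norm_num
  · intro a ha
    rcases mem_aJ.1 ha with ⟨v, hv, rfl⟩ | ⟨v, hv, rfl⟩
    · norm_num
    · exact big_nonneg V E

theorem countP_zip_le {E : List (ℕ × ℕ)} (j : ℕ) (P : (ℕ × ℕ) × ℕ → ℕ)
    (hP : ∀ q, P q ≤ if q.2 = j then 2 else 0) : (E.zipIdx.map P).sum ≤ 2 := by
  have h1 : (E.zipIdx.map P).sum ≤ (E.zipIdx.map (fun q => if q.2 = j then 2 else 0)).sum :=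
    List.sum_le_sum fun q _ => hP q
  refine h1.trans ?_
  by_cases hj : ∃ p ∈ E.zipIdx, p.2 = j
  · obtain ⟨p, hp, rfl⟩ := hj
    have h5 := zsum hp (fun _ => (2 : ℝ))
    have h6 : (((E.zipIdx.map (fun q => if q.2 = p.2 then 2 else 0)).sum : ℕ) : ℝ) =
        (E.zipIdx.map (fun q => if q.2 = p.2 then (2 : ℝ) else 0)).sum := by
      rw [Nat.cast_list_sum, List.map_map]
      congr 1
      refine List.map_congr_left fun q _ => ?_
      simp only [Function.comp_apply]
      split_ifs <;> norm_num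
    rw [h5] at h6
    have h7 : ((E.zipIdx.map (fun q => if q.2 = p.2 then 2 else 0)).sum : ℕ) = 2 := by exact_mod_cast h6
    omega
  · have h8 : (E.zipIdx.map (fun q => if q.2 = j then 2 else 0)).sum = 0 := by
      rw [List.sum_eq_zero_iff]
      intro x hx
      obtain ⟨q, hq, rfl⟩ := List.mem_map.1 hx
      rw [if_neg]
      intro h
      exact hj ⟨q, hq, h⟩
    omega

theorem outTwo_inst (hG : IsGraph V E) : OutTwo (inst V E k) := by
  constructor
  · intro i _
    simp only [PInst.outDeg, inst, PInst.AI, aI, List.countP_append, List.countP_map,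
      List.countP_flatMap]
    by_cases hpar : i.1 % 2 = 0
    · have h1 := countP_single hG.1 (i.1 / 2) ((fun a : (ℕ × ℕ) × ℚ × ℚ => decide (a.1.1 = i.1)) ∘
        fun v => ((2 * v, v), 0, 1)) (fun w h => by
          simp only [Function.comp_apply, decide_eq_true_eq] at h; omega)
      have h3 : (E.zipIdx.map (List.countP (fun a : (ℕ × ℕ) × ℚ × ℚ => decide (a.1.1 = i.1)) ∘
          fun p => [((2 * p.2 + 1, p.1.1), ((-((k + 1 : ℕ) : ℤ) : ℤ) : ℚ), 1),
            ((2 * p.2 + 1, p.1.2), ((-((k + 1 : ℕ) : ℤ) : ℤ) : ℚ), 1)])).sum = 0 := by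
        rw [List.sum_eq_zero_iff]
        intro x hx
        obtain ⟨q, _, rfl⟩ := List.mem_map.1 hx
        simp only [Function.comp_apply, List.countP_cons, List.countP_nil, decide_eq_true_eq, zero_add]
        rw [if_neg (by omega), add_zero]
      omega
    · have h1 : V.countP ((fun a : (ℕ × ℕ) × ℚ × ℚ => decide (a.1.1 = i.1)) ∘
          fun v => ((2 * v, v), 0, 1)) = 0 := by
        rw [List.countP_eq_zero]
        intro v _
        simp only [Function.comp_apply, decide_eq_true_eq]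
        omega
      have h2 := countP_zip_le (E := E) (i.1 / 2)
        (List.countP (fun a : (ℕ × ℕ) × ℚ × ℚ => decide (a.1.1 = i.1)) ∘
          fun p => [((2 * p.2 + 1, p.1.1), ((-((k + 1 : ℕ) : ℤ) : ℤ) : ℚ), 1),
            ((2 * p.2 + 1, p.1.2), ((-((k + 1 : ℕ) : ℤ) : ℤ) : ℚ), 1)]) (by
        intro q
        simp only [Function.comp_apply, List.countP_cons, List.countP_nil, decide_eq_true_eq, zero_add]
        by_cases h : q.2 = i.1 / 2
        · rw [if_pos h]
          split_ifs <;> norm_num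
        · rw [if_neg (by omega)]
          simp)
      omega
  · intro l _
    simp only [PInst.outDeg, inst, PInst.AJ, aJ, List.countP_append, List.countP_map]
    have h1 := countP_single hG.1 l.1 ((fun a : (ℕ × ℕ) × ℚ × ℚ => decide (a.1.1 = l.1)) ∘
      fun v => ((v, 2 * v), -1, 1)) (fun w h => by simpa using h)
    have h2 := countP_single hG.1 l.1 ((fun a : (ℕ × ℕ) × ℚ × ℚ => decide (a.1.1 = l.1)) ∘
      fun v => ((v, 2 * v + 1), 0, big V E)) (fun w h => by simpa using h)
    omega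

/-! ### Sums of the instance -/

theorem outflow_aJ (hG : IsGraph V E) (y : ℕ × ℕ → ℝ) {v : ℕ} (hv : v ∈ V) :
    outflow (aJ V E) y v = y (v, 2 * v) + y (v, 2 * v + 1) := by
  unfold outflow aJ
  rw [List.map_append, List.sum_append, List.map_map, List.map_map]
  congr 1
  · exact sum_single hG.1 hv (fun w => y (w, 2 * w))
  · exact sum_single hG.1 hv (fun w => y (w, 2 * w + 1))

theorem inflow_aJ0 (hG : IsGraph V E) (y : ℕ × ℕ → ℝ) {v : ℕ} (hv : v ∈ V) :
    inflow (aJ V E) y (2 * v) = y (v, 2 * v) := by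
  unfold inflow aJ
  rw [List.map_append, List.sum_append, List.map_map, List.map_map,
    sum_none V ((fun a : (ℕ × ℕ) × ℚ × ℚ => if a.1.2 = 2 * v then y a.1 else 0) ∘
      fun v => ((v, 2 * v + 1), 0, big V E)) (fun w _ => by
        simp only [Function.comp_apply]; rw [if_neg (by omega)]), add_zero]
  rw [← sum_single hG.1 hv (fun w => y (w, 2 * w))]
  congr 1
  refine List.map_congr_left fun w _ => ?_
  simp only [Function.comp_apply]
  by_cases h : w = v
  · rw [if_pos h, if_pos (by omega)]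
  · rw [if_neg h, if_neg (by omega)]

theorem inflow_aJ1 (hG : IsGraph V E) (y : ℕ × ℕ → ℝ) {v : ℕ} (hv : v ∈ V) :
    inflow (aJ V E) y (2 * v + 1) = y (v, 2 * v + 1) := by
  unfold inflow aJ
  rw [List.map_append, List.sum_append, List.map_map, List.map_map,
    sum_none V ((fun a : (ℕ × ℕ) × ℚ × ℚ => if a.1.2 = 2 * v + 1 then y a.1 else 0) ∘
      fun v => ((v, 2 * v), -1, 1)) (fun w _ => by
        simp only [Function.comp_apply]; rw [if_neg (by omega)]), zero_add]
  rw [← sum_single hG.1 hv (fun w => y (w, 2 * w + 1))]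
  congr 1
  refine List.map_congr_left fun w _ => ?_
  simp only [Function.comp_apply]
  by_cases h : w = v
  · rw [if_pos h, if_pos (by omega)]
  · rw [if_neg h, if_neg (by omega)]

theorem cost_aJ (y : ℕ × ℕ → ℝ) : cost (aJ V E) y = -(V.map (fun v => y (v, 2 * v))).sum := by
  unfold cost aJ
  rw [List.map_append, List.sum_append, List.map_map, List.map_map,
    sum_none V ((fun a : (ℕ × ℕ) × ℚ × ℚ => (a.2.1 : ℝ) * y a.1) ∘
      fun v => ((v, 2 * v + 1), 0, big V E)) (fun w _ => by simp), add_zero, ← sum_neg']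
  congr 1
  refine List.map_congr_left fun w _ => ?_
  simp

/-- the dirty flow into `v` -/
noncomputable def dirty (E : List (ℕ × ℕ)) (x : ℕ × ℕ → ℝ) (v : ℕ) : ℝ :=
  (E.zipIdx.map (fun q => (if q.1.1 = v then x (2 * q.2 + 1, v) else 0) +
      (if q.1.2 = v then x (2 * q.2 + 1, v) else 0))).sum

theorem inflow_aI (hG : IsGraph V E) (x : ℕ × ℕ → ℝ) {v : ℕ} (hv : v ∈ V) :
    inflow (aI V E k) x v = x (2 * v, v) + dirty E x v := by
  unfold inflow aI dirty
  rw [List.map_append, List.sum_append, List.map_map, List.map_flatMap, sum_fm]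
  congr 1
  · exact sum_single hG.1 hv (fun w => x (2 * w, w))
  · congr 1
    refine List.map_congr_left fun q _ => ?_
    simp only [List.map_cons, List.map_nil, List.sum_cons, List.sum_nil, add_zero]
    congr 1
    · by_cases h : q.1.1 = v
      · rw [if_pos h, if_pos h, h]
      · rw [if_neg h, if_neg h]
    · by_cases h : q.1.2 = v
      · rw [if_pos h, if_pos h, h]
      · rw [if_neg h, if_neg h]

theorem outflow_aI0 (hG : IsGraph V E) (x : ℕ × ℕ → ℝ) {v : ℕ} (hv : v ∈ V) :
    outflow (aI V E k) x (2 * v) = x (2 * v, v) := by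
  unfold outflow aI
  rw [List.map_append, List.sum_append, List.map_map, List.map_flatMap, sum_fm]
  rw [sum_none E.zipIdx _ (fun q _ => by
    simp only [List.map_cons, List.map_nil, List.sum_cons, List.sum_nil, add_zero]
    rw [if_neg (by omega), if_neg (by omega), add_zero]), add_zero]
  rw [← sum_single hG.1 hv (fun w => x (2 * w, w))]
  congr 1
  refine List.map_congr_left fun w _ => ?_
  simp only [Function.comp_apply]
  by_cases h : w = v
  · rw [if_pos h, if_pos (by omega)]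
  · rw [if_neg h, if_neg (by omega)]

theorem outflow_aI1 (x : ℕ × ℕ → ℝ) {p : (ℕ × ℕ) × ℕ} (hp : p ∈ E.zipIdx) :
    outflow (aI V E k) x (2 * p.2 + 1) = x (2 * p.2 + 1, p.1.1) + x (2 * p.2 + 1, p.1.2) := by
  unfold outflow aI
  rw [List.map_append, List.sum_append, List.map_map, List.map_flatMap, sum_fm]
  rw [sum_none V _ (fun v _ => by simp only [Function.comp_apply]; rw [if_neg (by omega)]), zero_add]
  rw [← zsum hp (fun q => x (2 * q.2 + 1, q.1.1) + x (2 * q.2 + 1, q.1.2))]
  congr 1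
  refine List.map_congr_left fun q _ => ?_
  simp only [List.map_cons, List.map_nil, List.sum_cons, List.sum_nil, add_zero]
  by_cases h : q.2 = p.2
  · rw [if_pos h, if_pos (by omega)]
    rw [if_pos (by omega)]
  · rw [if_neg h, if_neg (by omega), if_neg (by omega), add_zero]

theorem lam0 (c : ℝ) (n : ℕ) (hn : n % 2 = 0) :
    ((ins V E).map (fun i => if i.1 = n then (i.2.2 : ℝ) * c else 0)).sum = 0 := by
  refine sum_none _ _ fun i hi => ?_
  simp only [ins, List.mem_append, List.mem_map] at hi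
  rcases hi with ⟨v, _, rfl⟩ | ⟨v, _, rfl⟩
  · simp
  · simp only
    rw [if_neg (by omega)]

theorem lam1 (c : ℝ) {p : (ℕ × ℕ) × ℕ} (hp : p ∈ E.zipIdx) :
    ((ins V E).map (fun i => if i.1 = 2 * p.2 + 1 then (i.2.2 : ℝ) * c else 0)).sum = c := by
  unfold ins
  rw [List.map_append, List.sum_append, List.map_map, List.map_map]
  rw [sum_none V _ (fun v _ => by simp only [Function.comp_apply]; rw [if_neg (by omega)]), zero_add]
  refine Eq.trans ?_ (zsum hp (fun _ => c))
  congr 1
  refine List.map_congr_left fun q _ => ?_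
  simp only [Function.comp_apply]
  by_cases h : q.2 = p.2
  · rw [if_pos h, if_pos (by omega)]
    simp
  · rw [if_neg h, if_neg (by omega)]

theorem quality_aI (x : ℕ × ℕ → ℝ) {v : ℕ} :
    ((aI V E k).map (fun a => if a.1.2 = v then
      (((inst V E k).inputs).map (fun i => if i.1 = a.1.1 then (i.2.2 : ℝ) * x a.1 else 0)).sum
        else 0)).sum = dirty E x v := by
  rw [inputs_eq]
  unfold aI dirty
  rw [List.map_append, List.sum_append, List.map_map, List.map_flatMap, sum_fm]
  rw [sum_none V _ (fun v _ => by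
    simp only [Function.comp_apply]
    rw [lam0 _ _ (by omega)]
    simp), zero_add]
  congr 1
  refine List.map_congr_left fun q hq => ?_
  simp only [List.map_cons, List.map_nil, List.sum_cons, List.sum_nil, add_zero]
  rw [lam1 _ hq, lam1 _ hq]
  congr 1
  · by_cases h : q.1.1 = v
    · rw [if_pos h, if_pos h, h]
    · rw [if_neg h, if_neg h]
  · by_cases h : q.1.2 = v
    · rw [if_pos h, if_pos h, h]
    · rw [if_neg h, if_neg h]

theorem cost_aI (x : ℕ × ℕ → ℝ) : cost (aI V E k) x =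
    -((k : ℝ) + 1) * (E.zipIdx.map (fun q => x (2 * q.2 + 1, q.1.1) + x (2 * q.2 + 1, q.1.2))).sum := by
  unfold cost aI
  rw [List.map_append, List.sum_append, List.map_map, List.map_flatMap, sum_fm]
  rw [sum_none V _ (fun v _ => by simp), zero_add, ← List.sum_map_mul_left]
  congr 1
  refine List.map_congr_left fun q _ => ?_
  simp only [List.map_cons, List.map_nil, List.sum_cons, List.sum_nil, add_zero]
  push_cast
  ring

theorem out_bwd (hG : IsGraph V E) (hk : k ≤ V.length) {x y : ℕ × ℕ → ℝ} {p : ℕ → ℝ}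
    (hf : Feasible (inst V E k) x y p)
    (hc : cost (inst V E k).AI x + cost (inst V E k).AJ y ≤ ((bnd V E k : ℚ) : ℝ)) :
    VC ((V, E), k) := by
  classical
  obtain ⟨h1, h2, h3, h4, h5, h6, h7⟩ := hf
  rw [aI_eq, aJ_eq] at *
  have hpool : ∀ v ∈ V, (v, big V E) ∈ (inst V E k).pools := fun v hv => List.mem_map.2 ⟨v, hv, rfl⟩
  have hout0 : ∀ v ∈ V, (2 * v, (1 : ℚ), (0 : ℚ)) ∈ (inst V E k).outputs := fun q hq =>
    List.mem_append_left _ (List.mem_map.2 ⟨q, hq, rfl⟩)
  have hin1 : ∀ q ∈ E.zipIdx, (2 * q.2 + 1, (1 : ℚ), (1 : ℚ)) ∈ (inst V E k).inputs := fun q hq =>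
    List.mem_append_right _ (List.mem_map.2 ⟨q, hq, rfl⟩)
  have hy1 : ∀ v ∈ V, 0 ≤ y (v, 2 * v) ∧ y (v, 2 * v) ≤ 1 := by
    intro v hv
    have := h2 ((v, 2 * v), -1, 1) (mem_aJ.2 (Or.inl ⟨v, hv, rfl⟩))
    simpa using this
  have hxL : ∀ q ∈ E.zipIdx, 0 ≤ x (2 * q.2 + 1, q.1.1) := fun q hq =>
    (h1 ((2 * q.2 + 1, q.1.1), _, _) (mem_aI.2 (Or.inr ⟨q, hq, Or.inl rfl⟩))).1
  have hxR : ∀ q ∈ E.zipIdx, 0 ≤ x (2 * q.2 + 1, q.1.2) := fun q hq =>
    (h1 ((2 * q.2 + 1, q.1.2), _, _) (mem_aI.2 (Or.inr ⟨q, hq, Or.inr rfl⟩))).1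
  have hx0 : ∀ v ∈ V, 0 ≤ x (2 * v, v) := fun v hv =>
    (h1 ((2 * v, v), _, _) (mem_aI.2 (Or.inl ⟨v, hv, rfl⟩))).1
  have hterm : ∀ v, ∀ q ∈ E.zipIdx, 0 ≤ (if q.1.1 = v then x (2 * q.2 + 1, v) else 0) +
      (if q.1.2 = v then x (2 * q.2 + 1, v) else 0) := by
    intro v q hq
    refine add_nonneg ?_ ?_
    · split_ifs with h
      · rw [← h]; exact hxL q hq
      · exact le_rfl
    · split_ifs with h
      · rw [← h]; exact hxR q hq
      · exact le_rfl
  have hd0 : ∀ v, 0 ≤ dirty E x v := fun v => List.sum_nonneg (by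
    intro z hz
    obtain ⟨q, hq, rfl⟩ := List.mem_map.1 hz
    exact hterm v q hq)
  have hdL : ∀ q ∈ E.zipIdx, x (2 * q.2 + 1, q.1.1) ≤ dirty E x q.1.1 := by
    intro q hq
    have h8 := mem_le_sum E.zipIdx (fun q' => (if q'.1.1 = q.1.1 then x (2 * q'.2 + 1, q.1.1) else 0) +
      (if q'.1.2 = q.1.1 then x (2 * q'.2 + 1, q.1.1) else 0)) (hterm q.1.1) hq
    have hne := (hG.2.1 _ (zmem hq)).2.2
    simp only [if_true] at h8
    rw [if_neg (fun h => hne h.symm), add_zero] at h8
    exact h8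
  have hdR : ∀ q ∈ E.zipIdx, x (2 * q.2 + 1, q.1.2) ≤ dirty E x q.1.2 := by
    intro q hq
    have h8 := mem_le_sum E.zipIdx (fun q' => (if q'.1.1 = q.1.2 then x (2 * q'.2 + 1, q.1.2) else 0) +
      (if q'.1.2 = q.1.2 then x (2 * q'.2 + 1, q.1.2) else 0)) (hterm q.1.2) hq
    have hne := (hG.2.1 _ (zmem hq)).2.2
    simp only [if_true] at h8
    rw [if_neg hne, zero_add] at h8
    exact h8
  set C : Finset ℕ := V.toFinset.filter (fun v => 0 < dirty E x v) with hC
  have hCV : ∀ v ∈ C, v ∈ V := fun v hv => List.mem_toFinset.1 (Finset.mem_filter.1 hv).1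
  have hCy : ∀ v ∈ C, y (v, 2 * v) = 0 := by
    intro v hv
    have hpos := (Finset.mem_filter.1 hv).2
    have hvV := hCV v hv
    have h8 := h6 _ (hpool v hvV)
    have h9 := (h4 _ (hpool v hvV)).2
    simp only at h8 h9
    rw [quality_aI x] at h8
    rw [inflow_aI hG x hvV] at h9
    have hx0v := hx0 v hvV
    have hout : 0 < outflow (aJ V E) y v := by rw [← h9]; linarith
    have hp : 0 < p v := by
      by_contra hcon
      push Not at hcon
      have := mul_nonpos_of_nonpos_of_nonneg hcon hout.le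
      linarith
    have h10 := h7 _ (hout0 v hvV)
    simp only at h10
    have h11 : ((aJ V E).map (fun a => if a.1.2 = 2 * v then p a.1.1 * y a.1 else 0)).sum =
        p v * y (v, 2 * v) := inflow_aJ0 hG (fun a => p a.1 * y a) hvV
    rw [h11] at h10
    push_cast at h10
    rw [zero_mul] at h10
    have h12 := (hy1 v hvV).1
    rcases h12.eq_or_lt with h | h
    · exact h.symm
    · have := mul_pos hp h
      linarith
  have hsumy : (V.map (fun v => y (v, 2 * v))).sum ≤ (V.length : ℝ) - C.card := by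
    rw [← sum_notin hG.1 C hCV]
    refine sum_le_sum' _ _ _ fun v hv => ?_
    split_ifs with h
    · exact (hCy v h).le
    · exact (hy1 v hv).2
  have hF : ∀ q ∈ E.zipIdx, x (2 * q.2 + 1, q.1.1) + x (2 * q.2 + 1, q.1.2) ≤ 1 := by
    intro q hq'
    have := h3 _ (hin1 q hq')
    simp only at this
    rw [outflow_aI1 x hq'] at this
    simpa using this
  rw [cost_aI, cost_aJ, bnd_eq hk] at hc
  have hk0 : (0 : ℝ) ≤ k := Nat.cast_nonneg k
  have hcov : ∀ e ∈ E, e.1 ∈ C ∨ e.2 ∈ C := by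
    intro e he
    by_contra hcon
    push Not at hcon
    obtain ⟨q, hq', rfl⟩ := zex he
    have hG' := hG.2.1 _ he
    have h8 : x (2 * q.2 + 1, q.1.1) = 0 := by
      have h9 : ¬ 0 < dirty E x q.1.1 := fun h =>
        hcon.1 (Finset.mem_filter.2 ⟨List.mem_toFinset.2 hG'.1, h⟩)
      have := hdL q hq'
      have := hxL q hq'
      linarith
    have h9 : x (2 * q.2 + 1, q.1.2) = 0 := by
      have h9 : ¬ 0 < dirty E x q.1.2 := fun h =>
        hcon.2 (Finset.mem_filter.2 ⟨List.mem_toFinset.2 hG'.2.1, h⟩)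
      have := hdR q hq'
      have := hxR q hq'
      linarith
    have h10 := sum_le_pred E.zipIdx (fun q => x (2 * q.2 + 1, q.1.1) + x (2 * q.2 + 1, q.1.2)) hF hq'
      (by rw [h8, h9, add_zero])
    rw [len_z] at h10
    have h11 := mul_le_mul_of_nonneg_left h10 (by linarith : (0 : ℝ) ≤ (k : ℝ) + 1)
    have h12 : (0 : ℝ) ≤ C.card := Nat.cast_nonneg _
    linarith
  refine ⟨C, hCV, ?_, hcov⟩
  have h10 : (E.zipIdx.map (fun q => x (2 * q.2 + 1, q.1.1) + x (2 * q.2 + 1, q.1.2))).sum ≤ E.length := by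
    have := sum_le_sum' E.zipIdx _ (fun _ => (1 : ℝ)) hF
    simpa using this
  have h11 := mul_le_mul_of_nonneg_left h10 (by linarith : (0 : ℝ) ≤ (k : ℝ) + 1)
  have h12 : (C.card : ℝ) ≤ k := by linarith
  exact_mod_cast h12

theorem out_fwd (hG : IsGraph V E) (hk : k ≤ V.length) (h : VC ((V, E), k)) :
    ∃ x y p, Feasible (inst V E k) x y p ∧
      cost (inst V E k).AI x + cost (inst V E k).AJ y ≤ ((bnd V E k : ℚ) : ℝ) := by
  classical
  obtain ⟨C, hCV, hCk, hcov⟩ := h
  simp only at hCV hCk hcov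
  set cnt : ℕ → ℝ := fun v => (E.zipIdx.map (fun q => if asg C q.1 = v then (1 : ℝ) else 0)).sum
    with hcnt
  have hcnt0 : ∀ v, 0 ≤ cnt v := fun v => List.sum_nonneg (by
    intro x hx
    obtain ⟨q, _, rfl⟩ := List.mem_map.1 hx
    split_ifs <;> norm_num)
  have hcntE : ∀ v, cnt v ≤ E.length := fun v => by
    have := sum_le_sum' E.zipIdx (fun q => if asg C q.1 = v then (1 : ℝ) else 0) (fun _ => (1 : ℝ))
      (fun q _ => by split_ifs <;> norm_num)
    simpa using this
  have hcntC : ∀ v, v ∉ C → cnt v = 0 := fun v hv => sum_none _ _ fun q hq => by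
    rw [if_neg]
    intro h
    exact hv (h ▸ asg_mem (hcov _ (zmem hq)))
  set y : ℕ × ℕ → ℝ := fun a => if a.2 % 2 = 0 then (if a.1 ∈ C then 0 else 1) else cnt a.1 with hy
  set x : ℕ × ℕ → ℝ := fun a => if a.1 % 2 = 0 then (if a.2 ∈ C then 0 else 1) else
    (if ∃ q ∈ E.zipIdx, 2 * q.2 + 1 = a.1 ∧ asg C q.1 = a.2 then 1 else 0) with hx
  set p : ℕ → ℝ := fun v => if v ∈ C then 1 else 0 with hp
  have y0 : ∀ v, y (v, 2 * v) = if v ∈ C then 0 else 1 := fun v => by
    simp only [hy]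
    rw [if_pos (by omega)]
  have y1 : ∀ v, y (v, 2 * v + 1) = cnt v := fun v => by
    simp only [hy]
    rw [if_neg (by omega)]
  have x0 : ∀ v, x (2 * v, v) = if v ∈ C then 0 else 1 := fun v => by
    simp only [hx]
    rw [if_pos (by omega)]
  have x1 : ∀ v, ∀ q ∈ E.zipIdx, x (2 * q.2 + 1, v) = if asg C q.1 = v then 1 else 0 := fun v q hq => by
    simp only [hx]
    rw [if_neg (by omega)]
    by_cases h : asg C q.1 = v
    · rw [if_pos h, if_pos ⟨q, hq, rfl, h⟩]
    · rw [if_neg h, if_neg]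
      rintro ⟨q', hq', h1, h2⟩
      rw [zinj hq' hq (by omega)] at h2
      exact h h2
  have hbig := big_ge V E
  have hVE : (0 : ℝ) ≤ V.length * E.length := by positivity
  have hV0 : (0 : ℝ) ≤ V.length := Nat.cast_nonneg _
  have hE0 : (0 : ℝ) ≤ E.length := Nat.cast_nonneg _
  have hdirty : ∀ v, dirty E x v = cnt v := by
    intro v
    unfold dirty
    simp only [hcnt]
    congr 1
    refine List.map_congr_left fun q hq => ?_
    rw [x1 v q hq]
    exact asg_split (hG.2.1 _ (zmem hq)).2.2 v 1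
  have hin : ∀ v ∈ V, inflow (aI V E k) x v = (if v ∈ C then 0 else 1) + cnt v := by
    intro v hv
    rw [inflow_aI hG x hv, x0, hdirty]
  have hout : ∀ v ∈ V, outflow (aJ V E) y v = (if v ∈ C then 0 else 1) + cnt v := by
    intro v hv
    rw [outflow_aJ hG y hv, y0, y1]
  have hedge : ∀ q ∈ E.zipIdx, x (2 * q.2 + 1, q.1.1) + x (2 * q.2 + 1, q.1.2) = 1 := by
    intro q hq
    rw [x1 _ q hq, x1 _ q hq]
    have hne := (hG.2.1 _ (zmem hq)).2.2
    by_cases h1 : asg C q.1 = q.1.1
    · have h2 : asg C q.1 ≠ q.1.2 := fun h => hne (h1.symm.trans h)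
      rw [if_pos h1, if_neg h2]
      norm_num
    · have h2 : asg C q.1 = q.1.2 := by
        unfold asg at h1 ⊢
        split_ifs at h1 ⊢ with h3
        · exact absurd rfl h1
        · rfl
      rw [if_neg h1, if_pos h2]
      norm_num
  refine ⟨x, y, p, ⟨?_, ?_, ?_, ?_, ?_, ?_, ?_⟩, ?_⟩
  · intro a ha
    rcases mem_aI.1 ha with ⟨v, hv, rfl⟩ | ⟨q, hq, rfl | rfl⟩
    · simp only
      rw [x0]
      split_ifs <;> norm_num
    · simp only
      rw [x1 _ q hq]
      split_ifs <;> norm_num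
    · simp only
      rw [x1 _ q hq]
      split_ifs <;> norm_num
  · intro a ha
    rcases mem_aJ.1 ha with ⟨v, hv, rfl⟩ | ⟨v, hv, rfl⟩
    · simp only
      rw [y0]
      split_ifs <;> norm_num
    · simp only
      rw [y1]
      exact ⟨hcnt0 v, (hcntE v).trans (by linarith)⟩
  · intro i hi
    simp only [inst, ins, PInst.inputs, List.mem_append, List.mem_map] at hi
    rw [aI_eq]
    rcases hi with ⟨v, hv, rfl⟩ | ⟨q, hq, rfl⟩
    · simp only
      rw [outflow_aI0 hG x hv, x0]
      split_ifs <;> norm_num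
    · simp only
      rw [outflow_aI1 x hq, hedge q hq]
      norm_num
  · intro l hl
    simp only [inst, PInst.pools, List.mem_map] at hl
    obtain ⟨v, hv, rfl⟩ := hl
    rw [aI_eq, aJ_eq]
    simp only
    rw [hin v hv, hout v hv]
    refine ⟨?_, rfl⟩
    have := hcntE v
    split_ifs <;> linarith
  · intro j hj
    simp only [inst, PInst.outputs, List.mem_append, List.mem_map] at hj
    rw [aJ_eq]
    rcases hj with ⟨v, hv, rfl⟩ | ⟨v, hv, rfl⟩
    · simp only
      rw [inflow_aJ0 hG y hv, y0]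
      split_ifs <;> norm_num
    · simp only
      rw [inflow_aJ1 hG y hv, y1]
      have := hcntE v
      linarith
  · intro l hl
    simp only [inst, PInst.pools, List.mem_map] at hl
    obtain ⟨v, hv, rfl⟩ := hl
    rw [aI_eq, aJ_eq]
    simp only
    rw [quality_aI x, hout v hv, hdirty]
    simp only [hp]
    split_ifs with h
    · ring
    · rw [hcntC v h]
      norm_num
  · intro j hj
    simp only [inst, PInst.outputs, List.mem_append, List.mem_map] at hj
    rw [aJ_eq]
    rcases hj with ⟨v, hv, rfl⟩ | ⟨v, hv, rfl⟩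
    · simp only
      have h0 : ((aJ V E).map (fun a => if a.1.2 = 2 * v then p a.1.1 * y a.1 else 0)).sum =
          p v * y (v, 2 * v) := inflow_aJ0 hG (fun a => p a.1 * y a) hv
      rw [h0, y0]
      simp only [hp]
      split_ifs <;> simp
    · simp only
      have h0 : ((aJ V E).map (fun a => if a.1.2 = 2 * v + 1 then p a.1.1 * y a.1 else 0)).sum =
          p v * y (v, 2 * v + 1) := inflow_aJ1 hG (fun a => p a.1 * y a) hv
      rw [h0, inflow_aJ1 hG y hv, y1]
      simp only [hp]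
      have := hcnt0 v
      split_ifs
      · push_cast
        linarith
      · push_cast
        linarith
  · rw [aI_eq, aJ_eq, cost_aI, cost_aJ, bnd_eq hk]
    have h1 : (V.map (fun v => y (v, 2 * v))).sum = (V.length : ℝ) - C.card := by
      rw [← sum_notin hG.1 C hCV]
      exact congrArg List.sum (List.map_congr_left fun v _ => y0 v)
    have h2 : (E.zipIdx.map (fun q => x (2 * q.2 + 1, q.1.1) + x (2 * q.2 + 1, q.1.2))).sum =
        E.length := by
      rw [List.map_congr_left hedge]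
      simp
    rw [h1, h2]
    have h3 : (C.card : ℝ) ≤ k := by exact_mod_cast hCk
    linarith

theorem redOut_poly : NPC.Poly redOut := by
  unfold redOut inst ins bnd aI aJ
  fun_prop

theorem out_hard : NPHardP (Pooling OutTwo) := by
  refine (hardPr_VC.trans (Pr' := fun _ => True) redOut_poly (fun _ _ => trivial) ?_).toHardI.toNPHardP
  rintro ⟨⟨V, E⟩, k⟩ ⟨hG, hk⟩
  simp only at hG hk
  constructor
  · intro h
    exact ⟨valid_inst hG, outTwo_inst hG, out_fwd hG hk h⟩
  · rintro ⟨-, -, x, y, p, hf, hc⟩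
    exact out_bwd hG hk hf hc

end Out

end Pool.Agent.X130.Pl
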